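import Pool.Agent.H85.TU.Targets

/-!
# Row PFT of the board tum_modules: perfectly many types from a coding
-/

set_option autoImplicit false

namespace Pool.Agent.H40.TU

open Set Pool.Agent.H85.TU

theorem eP_inj {ι : Type} {ar : ι → ℕ} {D : ι → Type} {x : Str ar D ℕ} (T : Dat x) :
    Function.Injective (eP T) := by
  intro i j h
  have h1 : (Sum.inl (Q.e i) : Q ⊕ ℕ) = Sum.inl (Q.e j) := congrArg Subtype.val h
  injection h1 with h2
  injection h2

theorem fP_inj {ι : Type} {ar : ι → ℕ} {D : ι → Type} {x : Str ar D ℕ} (T : Dat x) :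
    Function.Injective (fP T) := by
  intro i j h
  have h1 : (Sum.inl (Q.f i) : Q ⊕ ℕ) = Sum.inl (Q.f j) := congrArg Subtype.val h
  injection h1 with h2
  injection h2

theorem eP_ne_fP {ι : Type} {ar : ι → ℕ} {D : ι → Type} {x : Str ar D ℕ} (T : Dat x)
    (i j : ℕ) : eP T i ≠ fP T j := by
  intro h
  have h1 : (Sum.inl (Q.e i) : Q ⊕ ℕ) = Sum.inl (Q.f j) := congrArg Subtype.val h
  injection h1 with h2
  injection h2

theorem pf_PFT (hPRF : T_PRF) (hDEC : T_DEC) (hCLO : T_CLO) (hINF : T_INF) (hMES : T_MES) :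
    T_PFT := by
  classical
  intro ι _ ar D _ _ Y x T fr hx hfr i t par c hCod
  obtain ⟨e0⟩ := hINF ι ar D x T
  haveI : Countable (Pt T) := Countable.of_equiv ℕ e0
  refine hPRF ι ar D (Cov2 Y) (fun d => pull (Gst T (AD d) (fr d)) e0) ?_ ?_ ?_
  · refine measurable_pi_iff.2 fun j => measurable_pi_iff.2 fun v => ?_
    exact hMES ι ar D x T fr hfr j (e0 ∘ v)
  · intro d
    exact hCLO ι ar D Y x T (AD d) (fr d) e0 hx
  · intro d'
    have key : ∀ d : ℕ → Bool, Iso (pull (Gst T (AD d) (fr d)) e0)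
        (pull (Gst T (AD d') (fr d')) e0) →
        ∃ h : Pt T ≃ Pt T, ∀ j (w : Fin (ar j) → Pt T),
          Gst T (AD d') (fr d') j (h ∘ w) = Gst T (AD d) (fr d) j w := by
      rintro d ⟨g, hg⟩
      refine ⟨e0.symm.trans (g.trans e0), fun j w => ?_⟩
      have h1 := hg j (e0.symm ∘ w)
      have h2 : (e0 ∘ (g ∘ (e0.symm ∘ w)) : Fin (ar j) → Pt T) =
          (e0.symm.trans (g.trans e0)) ∘ w := by
        funext k
        rfl
      have h3 : (e0 ∘ (e0.symm ∘ w) : Fin (ar j) → Pt T) = w := by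
        funext k
        exact e0.apply_symm_apply (w k)
      have h4 : Gst T (AD d') (fr d') j (e0 ∘ (g ∘ (e0.symm ∘ w))) =
          Gst T (AD d) (fr d) j (e0 ∘ (e0.symm ∘ w)) := h1
      rw [h2, h3] at h4
      exact h4
    let H : (ℕ → Bool) → (Pt T ≃ Pt T) := fun d =>
      if h : Iso (pull (Gst T (AD d) (fr d)) e0) (pull (Gst T (AD d') (fr d')) e0) then
        (key d h).choose else Equiv.refl _
    have hH : ∀ d : ℕ → Bool, Iso (pull (Gst T (AD d) (fr d)) e0)
        (pull (Gst T (AD d') (fr d')) e0) → ∀ j (w : Fin (ar j) → Pt T),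
          Gst T (AD d') (fr d') j (H d ∘ w) = Gst T (AD d) (fr d) j w := by
      intro d hd
      have h1 : H d = (key d hd).choose := dif_pos hd
      rw [h1]
      exact (key d hd).choose_spec
    let Φ : (ℕ → Bool) → (Fin 8 → Pt T) × (Fin 8 → Pt T) × (Fin (ar i) → Pt T) := fun d =>
      (fun k => H d (eP T k), fun k => H d (fP T k), fun k => H d (par k))
    refine Set.MapsTo.countable_of_injOn (f := Φ) (t := Set.univ) (fun _ _ => mem_univ _) ?_
      Set.countable_univ
    intro d1 hd1 d2 hd2 heq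
    have hH1 := hH d1 hd1
    have hH2 := hH d2 hd2
    have he : ∀ k : Fin 8, H d1 (eP T k) = H d2 (eP T k) :=
      fun k => congrFun (congrArg Prod.fst heq) k
    have hf : ∀ k : Fin 8, H d1 (fP T k) = H d2 (fP T k) :=
      fun k => congrFun (congrArg (fun p => p.2.1) heq) k
    have hp : ∀ k, H d1 (par k) = H d2 (par k) :=
      fun k => congrFun (congrArg (fun p => p.2.2) heq) k
    let h : Pt T ≃ Pt T := (H d1).trans (H d2).symm
    have hfix : ∀ a, H d1 a = H d2 a → h a = a := by
      intro a ha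
      change (H d2).symm (H d1 a) = a
      rw [ha, Equiv.symm_apply_apply]
    have hG : ∀ j (w : Fin (ar j) → Pt T),
        Gst T (AD d2) (fr d2) j (h ∘ w) = Gst T (AD d1) (fr d1) j w := by
      intro j w
      rw [← hH2, ← hH1]
      congr 1
      funext k
      change H d2 ((H d2).symm (H d1 (w k))) = H d1 (w k)
      rw [Equiv.apply_symm_apply]
    refine hDEC (Pt T) (Pt T) _ _ (eP T) (fP T) (eP T) (fP T) d1 d2 (eP_inj T) (fP_inj T)
      (eP_ne_fP T) (hCod d1) (hCod d2) h ?_ ?_
    · intro a b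
      unfold RR
      have h1 : tup t par (h a) (h b) = h ∘ tup t par a b := by
        funext k
        change tup t par (h a) (h b) k = h (tup t par a b k)
        unfold tup
        cases hk : t k with
        | none => exact (hfix _ (hp k)).symm
        | some z => cases z <;> rfl
      rw [h1, hG]
    · intro k hk
      exact ⟨hfix _ (he ⟨k, hk⟩), hfix _ (hf ⟨k, hk⟩)⟩

end Pool.Agent.H40.TU
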